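import Pool.Agent.H18.CGR.Stmts

/-!
Row COE: the coefficients are cyclic.
-/

set_option autoImplicit false

noncomputable section

namespace Pool.CGR.COEaux

theorem delta (h2 : LIFStmt) (m : ℕ) (W : List (Fin m)) :
    ∃ L : E1 m →L[ℂ] ℂ, (∀ w, L (bb w) = if w = W then 1 else 0) ∧ ∀ f : E1 m, L f = f W := by
  classical
  obtain ⟨L, h3, -, h4⟩ := h2 m ℂ (fun w => if w = W then 1 else 0) 1 zero_le_one (by
    intro w
    split_ifs <;> simp)
  refine ⟨L, h3, fun f => ?_⟩
  have h5 := h4 f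
  have h6 : HasSum (fun w => f w • (if w = W then (1 : ℂ) else 0)) (f W • (1 : ℂ)) := by
    have h7 := hasSum_single (f := fun w => f w • (if w = W then (1 : ℂ) else 0)) W (by
      intro w hw
      simp [hw])
    simpa using h7
  have h8 := h5.unique h6
  simpa using h8

end Pool.CGR.COEaux

namespace Pool.CGR

theorem coe_thm (h1 : EXTStmt) (h2 : LIFStmt) : COEStmt := by
  classical
  intro m X Y hX hY F hF a b u v huv
  obtain ⟨L, hL1, hL2⟩ := COEaux.delta h2 m (a :: u)
  obtain ⟨Lu, hLu1, hLu2⟩ := COEaux.delta h2 m u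
  obtain ⟨Lv, hLv1, hLv2⟩ := COEaux.delta h2 m v
  have hXa : L.comp (X a) = (5 / 2 : ℂ) • Lu := by
    apply h1
    intro w
    simp [hX, hL1, hLu1]
  have hXi : ∀ i, i ≠ a → L.comp (X i) = 0 := by
    intro i hi
    apply h1
    intro w
    simp [hX, hL1, hi]
  have hYb : L.comp (Y b) = (5 / 2 : ℂ) • Lv := by
    apply h1
    intro w
    simp [hY, hL1, hLv1, huv]
  have hYi : ∀ i, i ≠ b → L.comp (Y i) = 0 := by
    intro i hi
    apply h1
    intro w
    simp [hY, hL1, huv, hi]
  have h3 : L (∑ i, X i (F i)) = (5 / 2 : ℂ) * F a u := by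
    rw [map_sum, Finset.sum_eq_single a]
    · have h4 := congrArg (fun K : E1 m →L[ℂ] ℂ => K (F a)) hXa
      simpa [hLu2] using h4
    · intro i _ hi
      have h4 := congrArg (fun K : E1 m →L[ℂ] ℂ => K (F i)) (hXi i hi)
      simpa using h4
    · intro h; exact absurd (Finset.mem_univ a) h
  have h5 : L (∑ i, Y i (F i)) = (5 / 2 : ℂ) * F b v := by
    rw [map_sum, Finset.sum_eq_single b]
    · have h4 := congrArg (fun K : E1 m →L[ℂ] ℂ => K (F b)) hYb
      simpa [hLv2] using h4
    · intro i _ hi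
      have h4 := congrArg (fun K : E1 m →L[ℂ] ℂ => K (F i)) (hYi i hi)
      simpa using h4
    · intro h; exact absurd (Finset.mem_univ b) h
  rw [hF, h5] at h3
  have h6 : (5 / 2 : ℂ) ≠ 0 := by norm_num
  exact (mul_left_cancel₀ h6 h3).symm

end Pool.CGR
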